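import Pool.Agent.H961R2.Lev.Stubs

open MeasureTheory Set Filter Topology InnerProductSpace Complex

namespace H519R2.LevP10

open H961Lev

/-- left end of the cell -/
noncomputable def aa (N : ℕ) (j : ℤ) : ℝ := ((j : ℝ) - 1 / 2) / N

lemma aa_succ (N : ℕ) (j : ℤ) : aa N (j + 1) = ((j : ℝ) + 1 / 2) / N := by
  unfold aa; push_cast; congr 1; ring

lemma aa_add (N : ℕ) (hN : 0 < N) (j : ℤ) : aa N (j + N) = aa N j + 1 := by
  unfold aa; push_cast
  have : (N : ℝ) ≠ 0 := by positivity
  field_simp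
  ring

lemma aa_le (N : ℕ) (hN : 0 < N) (j : ℤ) : aa N j ≤ aa N (j + 1) := by
  rw [aa_succ]; unfold aa
  have : (0 : ℝ) < N := by exact_mod_cast hN
  apply div_le_div_of_nonneg_right _ this.le
  linarith

lemma cellU_eq (U : ℂ → ℝ) (N : ℕ) (j : ℤ) :
    cellU U N j = N * ∫ t in (aa N j)..(aa N (j + 1)), U (t : ℂ) := by
  rw [aa_succ]; rfl

/-- kernel comparison -/
lemma PK_le (h d s s' : ℝ) (hh : 0 < h) (hd : 0 ≤ d) (hs : |s - s'| ≤ d) :
    PK h s ≤ (1 + (d / h + (d / h) ^ 2)) * PK h s' := by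
  unfold PK
  have key : s' ^ 2 + h ^ 2 ≤ (1 + (d / h + (d / h) ^ 2)) * (s ^ 2 + h ^ 2) := by
    have h1 : s' ^ 2 ≤ (|s| + d) ^ 2 := by
      apply sq_le_sq'
      · have := abs_le.mp hs
        have h3 := le_abs_self s
        have h4 := neg_abs_le s
        linarith [this.1, this.2]
      · have := abs_le.mp hs
        have h3 := le_abs_self s
        have h4 := neg_abs_le s
        linarith [this.1, this.2]
    have h2 : 2 * |s| * d ≤ (d / h) * (s ^ 2 + h ^ 2) := by
      have : 2 * |s| * h ≤ s ^ 2 + h ^ 2 := by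
        nlinarith [sq_nonneg (|s| - h), sq_abs s]
      calc 2 * |s| * d = (d / h) * (2 * |s| * h) := by field_simp
        _ ≤ (d / h) * (s ^ 2 + h ^ 2) := by
            apply mul_le_mul_of_nonneg_left this (by positivity)
    have h3 : d ^ 2 ≤ (d / h) ^ 2 * (s ^ 2 + h ^ 2) := by
      calc d ^ 2 = (d / h) ^ 2 * h ^ 2 := by field_simp
        _ ≤ (d / h) ^ 2 * (s ^ 2 + h ^ 2) := by
            apply mul_le_mul_of_nonneg_left _ (by positivity)
            nlinarith [sq_nonneg s]
    have h4 : (|s| + d) ^ 2 = s ^ 2 + 2 * |s| * d + d ^ 2 := by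
      rw [add_sq, sq_abs]
    nlinarith
  have hp := Real.pi_pos
  have hA : 0 < Real.pi * (s ^ 2 + h ^ 2) := by positivity
  have hB : 0 < Real.pi * (s' ^ 2 + h ^ 2) := by positivity
  rw [← mul_div_assoc, div_le_div_iff₀ hA hB]
  calc h * (Real.pi * (s' ^ 2 + h ^ 2)) = (h * Real.pi) * (s' ^ 2 + h ^ 2) := by ring
    _ ≤ (h * Real.pi) * ((1 + (d / h + (d / h) ^ 2)) * (s ^ 2 + h ^ 2)) := by
        apply mul_le_mul_of_nonneg_left key (by positivity)
    _ = _ := by ring

lemma PK_kap (h : ℝ) (N : ℕ) (hh : 0 < h) (hN : 0 < N) (m : ℤ) :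
    PK h ((m : ℝ) / N) = N * kap (h * N) m := by
  unfold PK kap
  have : (0 : ℝ) < N := by exact_mod_cast hN
  have hp := Real.pi_pos
  have h1 : (0 : ℝ) < Real.pi * (((m : ℝ) / N) ^ 2 + h ^ 2) := by positivity
  have h2 : (0 : ℝ) < Real.pi * ((h * N) ^ 2 + (m : ℝ) ^ 2) := by positivity
  rw [← mul_div_assoc, div_eq_div_iff h1.ne' h2.ne']
  field_simp
  ring

lemma PK_nonneg (h t : ℝ) (hh : 0 < h) : 0 ≤ PK h t := by
  unfold PK; positivity

lemma kap_nonneg (a : ℝ) (m : ℤ) (ha : 0 < a) : 0 ≤ kap a m := by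
  unfold kap; positivity

lemma kap_neg (a : ℝ) (m : ℤ) : kap a (-m) = kap a m := by
  unfold kap; push_cast; ring_nf

lemma summable_kap (a : ℝ) (ha : 0 < a) : Summable (fun m : ℤ => kap a m) := by
  have h1 : Summable (fun m : ℤ => (1 : ℝ) / (m : ℝ) ^ 2) :=
    Real.summable_one_div_int_pow.mpr (by norm_num)
  have h2 : Summable (fun m : ℤ => (a / Real.pi) * ((1 : ℝ) / (m : ℝ) ^ 2)) := h1.mul_left _
  have h3 : Summable (fun m : ℤ => if m = 0 then kap a 0 else 0) := by
    apply summable_of_ne_finset_zero (s := {0})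
    intro b hb
    simp only [Finset.mem_singleton] at hb
    simp [hb]
  refine Summable.of_nonneg_of_le (fun m => kap_nonneg a m ha) (fun m => ?_) (h2.add h3)
  by_cases hm : m = 0
  · subst hm; simp
  · simp only [hm, if_false, add_zero]
    unfold kap
    have hm' : (m : ℝ) ≠ 0 := by exact_mod_cast hm
    have : 0 < (m : ℝ) ^ 2 := by positivity
    rw [div_mul_div_comm, mul_one]
    apply div_le_div_of_nonneg_left ha.le (by positivity)
    apply mul_le_mul_of_nonneg_left _ Real.pi_pos.le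
    nlinarith [sq_nonneg a]

/-- decomposition into cells -/
lemma hasSum_cells (F : ℝ → ℝ) (hF : Integrable F) (N : ℕ) (hN : 0 < N) :
    HasSum (fun j : ℤ => ∫ t in (aa N j)..(aa N (j + 1)), F t) (∫ t, F t) := by
  have hN' : (0 : ℝ) < N := by exact_mod_cast hN
  have h1 : Integrable (fun s : ℝ => F (s / N)) := by
    have := (integrable_comp_mul_right_iff F (inv_ne_zero hN'.ne')).mpr hF
    simpa [div_eq_mul_inv] using this
  have h2 := h1.hasSum_intervalIntegral (-(1 / 2) : ℝ)
  have h3 : ∫ s : ℝ, F (s / N) = N * ∫ t, F t := by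
    rw [Measure.integral_comp_div]
    simp [abs_of_pos hN']
  rw [h3] at h2
  have h4 := h2.mul_left ((N : ℝ)⁻¹)
  rw [← mul_assoc, inv_mul_cancel₀ hN'.ne', one_mul] at h4
  have h5 : (fun j : ℤ => ∫ t in (aa N j)..(aa N (j + 1)), F t) =
      fun j : ℤ => (N : ℝ)⁻¹ * ∫ x in (-(1 / 2) : ℝ) + j..(-(1 / 2) : ℝ) + j + 1, F (x / N) := by
    funext j
    rw [intervalIntegral.integral_comp_div _ hN'.ne', smul_eq_mul, ← mul_assoc,
      inv_mul_cancel₀ hN'.ne', one_mul, aa_succ]
    unfold aa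
    congr 1
    · congr 1; ring
    · congr 1; ring
  rw [h5]
  exact h4

/-- the integral of the indicator of the complement over an interval -/
lemma meas_compl (E : Set ℝ) (hE : IsClosed E) :
    Measurable (Eᶜ.indicator (fun _ => (1 : ℝ))) :=
  measurable_const.indicator hE.measurableSet.compl

lemma int_compl (E : Set ℝ) (hE : IsClosed E) (a b : ℝ) :
    IntervalIntegrable (Eᶜ.indicator (fun _ => (1 : ℝ))) volume a b := by
  apply IntervalIntegrable.mono_fun (g := Eᶜ.indicator (fun _ => (1 : ℝ)))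
    (intervalIntegrable_const (c := (1 : ℝ)))
  · exact (meas_compl E hE).aestronglyMeasurable
  · apply Filter.Eventually.of_forall
    intro x
    by_cases hx : x ∈ Eᶜ
    · simp [hx]
    · simp [Set.indicator_of_notMem hx]

noncomputable def ff (E : Set ℝ) (N : ℕ) (j : ℤ) : ℝ :=
  N * ∫ t in (aa N j)..(aa N (j + 1)), Eᶜ.indicator (fun _ => (1 : ℝ)) t

lemma ff_nonneg (E : Set ℝ) (N : ℕ) (hN : 0 < N) (j : ℤ) : 0 ≤ ff E N j := by
  unfold ff
  apply mul_nonneg (by positivity)
  apply intervalIntegral.integral_nonneg (aa_le N hN j)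
  intro u _
  exact Set.indicator_nonneg (fun _ _ => zero_le_one) u

lemma ff_le_one (E : Set ℝ) (hE : IsClosed E) (N : ℕ) (hN : 0 < N) (j : ℤ) : ff E N j ≤ 1 := by
  unfold ff
  have hN' : (0 : ℝ) < N := by exact_mod_cast hN
  have h1 : ∫ t in (aa N j)..(aa N (j + 1)), Eᶜ.indicator (fun _ => (1 : ℝ)) t ≤
      ∫ t in (aa N j)..(aa N (j + 1)), (1 : ℝ) := by
    apply intervalIntegral.integral_mono_on (aa_le N hN j) (int_compl E hE _ _)
      (intervalIntegrable_const)
    intro x _
    exact Set.indicator_le_self' (fun _ _ => zero_le_one) x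
  have h2 : ∫ t in (aa N j)..(aa N (j + 1)), (1 : ℝ) = 1 / N := by
    rw [intervalIntegral.integral_const, smul_eq_mul, mul_one, aa_succ]
    unfold aa
    field_simp
    ring
  calc (N : ℝ) * ∫ t in (aa N j)..(aa N (j + 1)), Eᶜ.indicator (fun _ => (1 : ℝ)) t
      ≤ N * (1 / N) := by
        rw [← h2]; exact mul_le_mul_of_nonneg_left h1 hN'.le
    _ = 1 := by field_simp

lemma sum_ff (E : Set ℝ) (hE : IsClosed E) (N : ℕ) (hN : 0 < N) (j : ℤ) :
    ∑ k ∈ Finset.range N, ff E N (j + k) =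
      N * ∫ t in (aa N j)..(aa N j + 1), Eᶜ.indicator (fun _ => (1 : ℝ)) t := by
  unfold ff
  rw [← Finset.mul_sum]
  congr 1
  have h := intervalIntegral.sum_integral_adjacent_intervals (μ := volume) (n := N)
    (a := fun k : ℕ => aa N (j + k)) (f := Eᶜ.indicator (fun _ => (1 : ℝ)))
    (fun k _ => int_compl E hE _ _)
  simp only [Nat.cast_add, Nat.cast_one, Nat.cast_zero, add_zero] at h
  rw [aa_add N hN j] at h
  rw [← h]
  apply Finset.sum_congr rfl
  intro k _
  rw [add_assoc]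

lemma window (δ : ℝ) (hδ : 0 < δ) (E : Set ℝ) (hE : RD δ E) (N : ℕ) (hN : 0 < N) (j : ℤ) :
    ∑ k ∈ Finset.range N, ff E N (j + k) ≤ (1 - δ) * N := by
  rw [sum_ff E hE.1 N hN j, mul_comm]
  have hN' : (0 : ℝ) < N := by exact_mod_cast hN
  apply mul_le_mul_of_nonneg_right _ hN'.le
  set a := aa N j
  have hm : MeasurableSet E := hE.1.measurableSet
  rw [intervalIntegral.integral_of_le (by linarith), setIntegral_indicator hm.compl]
  rw [setIntegral_const, smul_eq_mul, mul_one]
  have h1 := hE.2 a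
  have h2 : volume (E ∩ Icc a (a + 1)) + volume (Ioc a (a + 1) ∩ Eᶜ) ≤ 1 := by
    have h3 : volume (E ∩ Icc a (a + 1)) = volume (E ∩ Ioc a (a + 1)) := by
      apply measure_congr
      exact (ae_eq_refl E).inter Ioc_ae_eq_Icc.symm
    rw [h3, inter_comm E, ← sdiff_eq, measure_inter_add_sdiff _ hm, Real.volume_Ioc]
    simp
  have hf1 : volume (Ioc a (a + 1) ∩ Eᶜ) ≠ ⊤ := by
    apply ne_top_of_le_ne_top ENNReal.one_ne_top
    exact le_trans (le_add_left le_rfl) h2
  have h4 : ENNReal.ofReal δ + volume (Ioc a (a + 1) ∩ Eᶜ) ≤ 1 :=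
    le_trans (add_le_add_left h1 _) h2
  have h5 := ENNReal.toReal_mono ENNReal.one_ne_top h4
  rw [ENNReal.toReal_add ENNReal.ofReal_ne_top hf1, ENNReal.toReal_ofReal hδ.le,
    ENNReal.toReal_one] at h5
  unfold Measure.real
  linarith

lemma posHalf_of_levin (E : Set ℝ) (U : ℂ → ℝ) (hU : IsLevin E U) : PosHalf U := by
  refine ⟨hU.cont.continuousOn, ?_, ?_⟩
  · intro z hz
    apply hU.harm
    rintro ⟨x, _, hx⟩
    rw [← hx] at hz
    simp at hz
  · intro z _
    by_cases hz : z ∈ ((fun x : ℝ => (x : ℂ)) '' E)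
    · obtain ⟨x, hx, rfl⟩ := hz
      exact (hU.zero x hx).ge
    · exact (hU.pos z hz).le

/-- the main estimate -/
lemma main_est (g : ℝ → ℝ) (B : ℝ) (hgc : Continuous g) (hg0 : ∀ t, 0 ≤ g t) (hgB : ∀ t, g t ≤ B)
    (N : ℕ) (h : ℝ) (hN : 0 < N) (hh : 0 < h) (i : ℤ) (x : ℝ) (hx : x ∈ Icc (aa N i) (aa N (i + 1)))
    (hint : Integrable (fun t : ℝ => PK h (x - t) * g t)) :
    ∫ t : ℝ, PK h (x - t) * g t ≤ (1 + epsf h N) * ∑' m : ℤ, kap (h * N) m *
      (N * ∫ t in (aa N (i + m))..(aa N (i + m + 1)), g t) := by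
  have hN' : (0 : ℝ) < N := by exact_mod_cast hN
  have hc := hasSum_cells _ hint N hN
  have hgi : ∀ a b : ℝ, IntervalIntegrable g volume a b := fun a b => hgc.intervalIntegrable a b
  -- bound on the cell integrals
  have hcell0 : ∀ j : ℤ, 0 ≤ N * ∫ t in (aa N j)..(aa N (j + 1)), g t := fun j =>
    mul_nonneg hN'.le (intervalIntegral.integral_nonneg (aa_le N hN j) (fun u _ => hg0 u))
  have hcellB : ∀ j : ℤ, N * ∫ t in (aa N j)..(aa N (j + 1)), g t ≤ B := by
    intro j
    have h1 : ∫ t in (aa N j)..(aa N (j + 1)), g t ≤ ∫ t in (aa N j)..(aa N (j + 1)), B :=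
      intervalIntegral.integral_mono_on (aa_le N hN j) (hgi _ _) intervalIntegrable_const
        (fun x _ => hgB x)
    have h2 : ∫ t in (aa N j)..(aa N (j + 1)), B = B / N := by
      rw [intervalIntegral.integral_const, smul_eq_mul, aa_succ]
      unfold aa
      field_simp
      ring
    calc (N : ℝ) * ∫ t in (aa N j)..(aa N (j + 1)), g t ≤ N * (B / N) := by
          rw [← h2]; exact mul_le_mul_of_nonneg_left h1 hN'.le
      _ = B := by field_simp
  have hB0 : 0 ≤ B := (hg0 0).trans (hgB 0)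
  have hsum : Summable (fun m : ℤ => kap (h * N) m *
      (N * ∫ t in (aa N (i + m))..(aa N (i + m + 1)), g t)) := by
    have hk := summable_kap (h * N) (by positivity)
    refine Summable.of_nonneg_of_le (fun m => mul_nonneg (kap_nonneg _ _ (by positivity))
      (hcell0 (i + m))) (fun m => ?_) (hk.mul_right B)
    exact mul_le_mul_of_nonneg_left (hcellB (i + m)) (kap_nonneg _ _ (by positivity))
  -- cell comparison
  have hcomp : ∀ m : ℤ, ∫ t in (aa N (i + m))..(aa N (i + m + 1)), PK h (x - t) * g t ≤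
      (1 + epsf h N) * (kap (h * N) m *
      (N * ∫ t in (aa N (i + m))..(aa N (i + m + 1)), g t)) := by
    intro m
    have h1 : ∀ t ∈ Icc (aa N (i + m)) (aa N (i + m + 1)), PK h (x - t) * g t ≤
        ((1 + epsf h N) * (N * kap (h * N) m)) * g t := by
      intro t ht
      apply mul_le_mul_of_nonneg_right _ (hg0 t)
      have h2 : |(x - t) - (((-m : ℤ) : ℝ) / N)| ≤ 1 / N := by
        rw [aa_succ] at hx ht
        unfold aa at hx ht
        obtain ⟨hx1, hx2⟩ := hx
        obtain ⟨ht1, ht2⟩ := ht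
        rw [div_le_iff₀ hN'] at hx1 ht1
        rw [le_div_iff₀ hN'] at hx2 ht2
        push_cast at *
        rw [abs_le]
        constructor
        · rw [← sub_nonneg]
          have : x - t - -(m : ℝ) / N - -(1 / N) = (x * N - t * N + m + 1) / N := by
            field_simp
            ring
          rw [this]
          apply div_nonneg _ hN'.le
          linarith
        · rw [← sub_nonneg]
          have : 1 / N - (x - t - -(m : ℝ) / N) = (1 - (x * N - t * N + m)) / N := by
            field_simp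
            ring
          rw [this]
          apply div_nonneg _ hN'.le
          linarith
      have h3 := PK_le h (1 / N) (x - t) (((-m : ℤ) : ℝ) / N) hh (by positivity) h2
      rw [PK_kap h N hh hN, kap_neg] at h3
      have h4 : (1 + (1 / (N : ℝ) / h + (1 / (N : ℝ) / h) ^ 2)) = 1 + epsf h N := by
        unfold epsf
        rw [div_div]
        congr 2
        rw [div_pow, one_pow]
      rw [h4] at h3
      exact h3
    have h5 : IntervalIntegrable (fun t => PK h (x - t) * g t) volume (aa N (i + m))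
        (aa N (i + m + 1)) := hint.intervalIntegrable
    have h6 : ∫ t in (aa N (i + m))..(aa N (i + m + 1)), PK h (x - t) * g t ≤
        ∫ t in (aa N (i + m))..(aa N (i + m + 1)), ((1 + epsf h N) * (N * kap (h * N) m)) * g t :=
      intervalIntegral.integral_mono_on (aa_le N hN (i + m)) h5 ((hgi _ _).const_mul _) h1
    rw [intervalIntegral.integral_const_mul] at h6
    calc _ ≤ _ := h6
      _ = _ := by ring
  -- reindex
  have hc' : HasSum (fun m : ℤ => ∫ t in (aa N (i + m))..(aa N (i + m + 1)), PK h (x - t) * g t)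
      (∫ t : ℝ, PK h (x - t) * g t) := by
    have := (Equiv.addLeft i).hasSum_iff.mpr hc
    exact this
  rw [← hc'.tsum_eq, ← tsum_mul_left]
  exact hc'.summable.tsum_le_tsum hcomp (hsum.mul_left _)

theorem T_P10 : S_P4 → S_P8 → S_P9 → S_P10 := by
  intro hP4 hP8 hP9 δ E U hδ hδ1 hE hU N h hN hh
  have hN' : (0 : ℝ) < N := by exact_mod_cast hN
  have hpos := posHalf_of_levin E U hU
  obtain ⟨B, hB⟩ := hP9 δ E U hδ hE hU
  have h4 := (hP4 U 1 hpos hU.norm).2
  have h8 := hP8 E U hE.1 hU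
  have hg0 : ∀ t : ℝ, 0 ≤ U (t : ℂ) := fun t => hpos.nonneg t (by simp)
  have hgc : Continuous (fun t : ℝ => U (t : ℂ)) := hU.cont.comp Complex.continuous_ofReal
  refine ⟨ff E N, fun j => ⟨ff_nonneg E N hN j, ff_le_one E hE.1 N hN j⟩,
    window δ hδ E hE N hN, fun i => ?_⟩
  set M : ℝ := h + (1 + epsf h N) * ∑' m : ℤ, kap (h * N) m * cellU U N (i + m) with hM
  have hxM : ∀ x ∈ Icc (aa N i) (aa N (i + 1)), U (x : ℂ) ≤ Eᶜ.indicator (fun _ => (1 : ℝ)) x * M := by
    intro x hx
    by_cases hxE : x ∈ E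
    · rw [Set.indicator_of_notMem (by simpa using hxE), zero_mul, hU.zero x hxE]
    · rw [Set.indicator_of_mem (by simpa using hxE), one_mul]
      have h1 := h8 x h hh
      have h2 := (h4 x h hh).2
      have h3 := main_est (fun t : ℝ => U (t : ℂ)) B hgc hg0 hB N h hN hh i x hx (h4 x h hh).1
      have h5 : (fun m : ℤ => kap (h * N) m *
          (N * ∫ t in (aa N (i + m))..(aa N (i + m + 1)), U (t : ℂ))) =
          fun m : ℤ => kap (h * N) m * cellU U N (i + m) := by
        funext m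
        rw [cellU_eq]
      rw [h5] at h3
      rw [h2, one_mul] at h1
      rw [hM]
      linarith
  have h7 : ∫ t in (aa N i)..(aa N (i + 1)), U (t : ℂ) ≤
      ∫ t in (aa N i)..(aa N (i + 1)), Eᶜ.indicator (fun _ => (1 : ℝ)) t * M :=
    intervalIntegral.integral_mono_on (aa_le N hN i) (hgc.intervalIntegrable _ _)
      ((int_compl E hE.1 _ _).mul_const M) hxM
  rw [intervalIntegral.integral_mul_const] at h7
  rw [cellU_eq]
  unfold ff
  calc (N : ℝ) * ∫ t in (aa N i)..(aa N (i + 1)), U (t : ℂ) ≤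
      N * ((∫ t in (aa N i)..(aa N (i + 1)), Eᶜ.indicator (fun _ => (1 : ℝ)) t) * M) :=
        mul_le_mul_of_nonneg_left h7 hN'.le
    _ = _ := by ring

end H519R2.LevP10
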