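import Pool.Agent.H295R2.Nic.Defs

/-!
Nicolas project (helper295), task C1 (helper519): structure of the exceptional integers and the
maximum of `n/φ(n)`.
-/

namespace Pool.Agent.H519R2.NicC1

open Pool.Agent.H295R2.Nic

/-- `-log(1-1/x)` -/
noncomputable def f (x : ℝ) : ℝ := -Real.log (1 - 1 / x)

lemma f_sub {a b : ℝ} (ha : 1 < a) (hab : a ≤ b) : 1 / a - 1 / b ≤ f a - f b := by
  have ha0 : 0 < a := by linarith
  have hb0 : 0 < b := by linarith
  have h1 : 0 < 1 - 1 / a := by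
    rw [sub_pos, div_lt_one ha0]; exact ha
  have h2 : 0 < 1 - 1 / b := by
    rw [sub_pos, div_lt_one hb0]; linarith
  have h3 : 1 / b ≤ 1 / a := one_div_le_one_div_of_le ha0 hab
  have h4 : f a - f b = Real.log ((1 - 1 / b) / (1 - 1 / a)) := by
    unfold f
    rw [Real.log_div h2.ne' h1.ne']; ring
  rw [h4]
  have h5 := Real.one_sub_inv_le_log_of_pos (div_pos h2 h1)
  refine le_trans ?_ h5
  rw [inv_div]
  have h6 : 1 - (1 - 1 / a) / (1 - 1 / b) = (1 / a - 1 / b) / (1 - 1 / b) := by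
    rw [eq_div_iff h2.ne', sub_mul, one_mul, div_mul_cancel₀ _ h2.ne']
    ring
  rw [h6, le_div_iff₀ h2]
  have h7 : 0 < 1 / b := by positivity
  nlinarith

lemma f_ge {a : ℝ} (ha : 1 < a) : 1 / a ≤ f a := by
  have ha0 : 0 < a := by linarith
  have h1 : 0 < 1 - 1 / a := by
    rw [sub_pos, div_lt_one ha0]; exact ha
  unfold f
  have := Real.log_le_sub_one_of_pos h1
  linarith

lemma f_le {a : ℝ} (ha : 1 < a) : f a ≤ 1 / (a - 1) := by
  have ha0 : 0 < a := by linarith
  have h1 : 0 < 1 - 1 / a := by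
    rw [sub_pos, div_lt_one ha0]; exact ha
  unfold f
  have h2 := Real.one_sub_inv_le_log_of_pos h1
  have h3 : (1 - 1 / a)⁻¹ = 1 + 1 / (a - 1) := by
    have : a - 1 ≠ 0 := by linarith
    field_simp
    ring
  rw [h3] at h2
  linarith

lemma sum_split (h : ℕ → ℝ) {n : ℕ} (hn : n ≠ 0) (y : ℕ) :
    ∑ p ∈ n.primeFactors, h p - ∑ p ∈ (Finset.Icc 1 y).filter Nat.Prime, h p =
      ∑ p ∈ n.primeFactors.filter (fun p => y < p), h p -
      ∑ p ∈ (Finset.Icc 1 y).filter (fun p => p.Prime ∧ ¬ p ∣ n), h p := by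
  rw [← Finset.sum_filter_add_sum_filter_not n.primeFactors (fun p => y < p),
    ← Finset.sum_filter_add_sum_filter_not ((Finset.Icc 1 y).filter Nat.Prime) (fun p => p ∣ n)]
  have h1 : n.primeFactors.filter (fun p => ¬ y < p) =
      ((Finset.Icc 1 y).filter Nat.Prime).filter (fun p => p ∣ n) := by
    ext p
    simp only [Finset.mem_filter, Nat.mem_primeFactors, Finset.mem_Icc, not_lt]
    constructor
    · rintro ⟨⟨h1, h2, _⟩, h3⟩
      exact ⟨⟨⟨h1.one_lt.le, h3⟩, h1⟩, h2⟩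
    · rintro ⟨⟨⟨_, h3⟩, h1⟩, h2⟩
      exact ⟨⟨h1, h2, hn⟩, h3⟩
  rw [h1, Finset.filter_filter (fun p => Nat.Prime p) (fun p => ¬ p ∣ n)]
  ring

lemma MP_nat (y : ℕ) : MP (y : ℝ) = ∑ p ∈ (Finset.Icc 1 y).filter Nat.Prime, f p := by
  unfold MP f
  rw [Nat.floor_natCast]

lemma theta_nat (y : ℕ) : Chebyshev.theta (y : ℝ) =
    ∑ p ∈ (Finset.Icc 1 y).filter Nat.Prime, Real.log p := by
  unfold Chebyshev.theta
  rw [Nat.floor_natCast]
  rfl

lemma theta_succ (y : ℕ) : Chebyshev.theta ((y : ℝ) + 1) ≤ Chebyshev.theta y + Real.log (y + 1) := by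
  have h1 : ((y : ℝ) + 1) = ((y + 1 : ℕ) : ℝ) := by push_cast; ring
  rw [h1]
  unfold Chebyshev.theta
  rw [Nat.floor_natCast, Nat.floor_natCast, Finset.sum_filter, Finset.sum_filter,
    Finset.sum_Ioc_succ_top (Nat.zero_le y)]
  have h2 : 0 ≤ Real.log ((y + 1 : ℕ) : ℝ) := Real.log_natCast_nonneg _
  split_ifs <;> linarith

lemma log_totient {n : ℕ} (hn : n ≠ 0) :
    Real.log ((n : ℝ) / Nat.totient n) = ∑ p ∈ n.primeFactors, f p := by
  have h1 : (Nat.totient n : ℝ) = n * ∏ p ∈ n.primeFactors, (1 - 1 / (p : ℝ)) := by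
    have := Nat.totient_eq_mul_prod_factors n
    have h2 : ((Nat.totient n : ℚ) : ℝ) = ((n * ∏ p ∈ n.primeFactors, (1 - (p : ℚ)⁻¹) : ℚ) : ℝ) := by
      rw [this]
    push_cast at h2
    rw [h2]
    congr 1
    refine Finset.prod_congr rfl (fun p _ => ?_)
    rw [one_div]
  have hpos : ∀ p ∈ n.primeFactors, (1 - 1 / (p : ℝ)) ≠ 0 := by
    intro p hp
    have h2 := (Nat.prime_of_mem_primeFactors hp).one_lt
    have h3 : (1 : ℝ) < p := by exact_mod_cast h2
    have : 0 < 1 - 1 / (p : ℝ) := by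
      rw [sub_pos, div_lt_one (by linarith)]; exact h3
    exact this.ne'
  have hn' : (n : ℝ) ≠ 0 := by exact_mod_cast hn
  have hprod : ∏ p ∈ n.primeFactors, (1 - 1 / (p : ℝ)) ≠ 0 := Finset.prod_ne_zero_iff.mpr hpos
  rw [h1, Real.log_div hn' (mul_ne_zero hn' hprod), Real.log_mul hn' hprod, Real.log_prod hpos]
  unfold f
  rw [Finset.sum_neg_distrib]
  ring

lemma log_rad {n : ℕ} (hn : n ≠ 0) :
    Real.log ((n : ℝ) / ∏ p ∈ n.primeFactors, (p : ℝ)) =
      Real.log n - ∑ p ∈ n.primeFactors, Real.log p := by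
  have hpos : ∀ p ∈ n.primeFactors, (p : ℝ) ≠ 0 := by
    intro p hp
    exact_mod_cast (Nat.prime_of_mem_primeFactors hp).ne_zero
  have hn' : (n : ℝ) ≠ 0 := by exact_mod_cast hn
  rw [Real.log_div hn' (Finset.prod_ne_zero_iff.mpr hpos), Real.log_prod hpos]

lemma log_rad_nonneg {n : ℕ} (hn : n ≠ 0) :
    0 ≤ Real.log ((n : ℝ) / ∏ p ∈ n.primeFactors, (p : ℝ)) := by
  have h1 : ∏ p ∈ n.primeFactors, p ≤ n := Nat.le_of_dvd (Nat.pos_of_ne_zero hn)
    (Nat.prod_primeFactors_dvd n)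
  have h2 : ((∏ p ∈ n.primeFactors, p : ℕ) : ℝ) ≤ n := by exact_mod_cast h1
  rw [Nat.cast_prod] at h2
  have h3 : 0 < ∏ p ∈ n.primeFactors, (p : ℝ) := by
    refine Finset.prod_pos (fun p hp => ?_)
    exact_mod_cast (Nat.prime_of_mem_primeFactors hp).pos
  apply Real.log_nonneg
  rw [le_div_iff₀ h3]; linarith

/-- the slope -/
noncomputable def lam (y : ℕ) : ℝ := f y / Real.log y

lemma lam_ge {y : ℕ} (hy : 2 ≤ y) : 1 / (y * Real.log y) ≤ lam y := by
  unfold lam
  have h1 : (1 : ℝ) < y := by exact_mod_cast hy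
  have h2 : 0 < Real.log y := Real.log_pos h1
  rw [← div_div]
  exact div_le_div_of_nonneg_right (f_ge h1) h2.le

lemma lam_log_succ {y : ℕ} (hy : 2 ≤ y) : lam y * Real.log (y + 1) ≤ 4 / y := by
  unfold lam
  have h0 : (2 : ℝ) ≤ y := by exact_mod_cast hy
  have h1 : (1 : ℝ) < y := by linarith
  have h2 : 0 < Real.log y := Real.log_pos h1
  have h3 : f y ≤ 2 / y := by
    refine (f_le h1).trans ?_
    rw [div_le_div_iff₀ (by linarith) (by linarith)]
    linarith
  have h4 : Real.log ((y : ℝ) + 1) ≤ 2 * Real.log y := by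
    have h5 : (2 : ℝ) * Real.log y = Real.log ((y : ℝ) ^ 2) := by
      rw [Real.log_pow]; norm_num
    rw [h5]
    apply Real.log_le_log (by linarith)
    nlinarith
  have h5 : 0 ≤ f y := le_trans (by positivity) (f_ge h1)
  calc f y / Real.log y * Real.log ((y : ℝ) + 1) ≤ f y / Real.log y * (2 * Real.log y) :=
        mul_le_mul_of_nonneg_left h4 (by positivity)
    _ = 2 * f y := by field_simp
    _ ≤ 2 * (2 / y) := by linarith
    _ = 4 / y := by ring

/-- the main identity -/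
lemma identity {n : ℕ} (hn : n ≠ 0) (y : ℕ) :
    ∑ p ∈ (Finset.Icc 1 y).filter (fun p => p.Prime ∧ ¬ p ∣ n), (f p - lam y * Real.log p) +
      ∑ p ∈ n.primeFactors.filter (fun p => y < p), (lam y * Real.log p - f p) +
      lam y * Real.log ((n : ℝ) / ∏ p ∈ n.primeFactors, (p : ℝ)) =
    MP y - Real.log ((n : ℝ) / Nat.totient n) + lam y * (Real.log n - Chebyshev.theta y) := by
  have h1 := sum_split (fun p => f p - lam y * Real.log p) hn y
  rw [Finset.sum_sub_distrib (s := n.primeFactors), Finset.sum_sub_distrib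
    (s := (Finset.Icc 1 y).filter Nat.Prime), ← Finset.mul_sum, ← Finset.mul_sum, ← MP_nat,
    ← theta_nat, ← log_totient hn] at h1
  have h2 : ∑ p ∈ n.primeFactors.filter (fun p => y < p), (lam y * Real.log p - f p) =
      - ∑ p ∈ n.primeFactors.filter (fun p => y < p), (f p - lam y * Real.log p) := by
    rw [← Finset.sum_neg_distrib]
    exact Finset.sum_congr rfl (fun p _ => by ring)
  rw [h2, log_rad hn]
  linarith

lemma low_term {y p : ℕ} (hy : 2 ≤ y) (hp : p.Prime) (hpy : p ≤ y) :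
    ((y : ℝ) - p) / (y : ℝ) ^ 2 ≤ f p - lam y * Real.log p := by
  have hy0 : (2 : ℝ) ≤ y := by exact_mod_cast hy
  have hp1 : (1 : ℝ) < p := by exact_mod_cast hp.one_lt
  have hpy' : (p : ℝ) ≤ y := by exact_mod_cast hpy
  have h2 : 0 < Real.log y := Real.log_pos (by linarith)
  have h3 : 0 ≤ f y := le_trans (by positivity) (f_ge (by linarith))
  have h1 : lam y * Real.log p ≤ f y := by
    unfold lam
    calc f y / Real.log y * Real.log p ≤ f y / Real.log y * Real.log y :=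
          mul_le_mul_of_nonneg_left (Real.log_le_log (by linarith) hpy') (by positivity)
      _ = f y := by field_simp
  have h4 := f_sub hp1 hpy'
  have h5 : ((y : ℝ) - p) / (y : ℝ) ^ 2 ≤ 1 / (p : ℝ) - 1 / y := by
    have hp0 : (0 : ℝ) < p := by linarith
    have hy0' : (0 : ℝ) < y := by linarith
    rw [div_sub_div _ _ hp0.ne' hy0'.ne', div_le_div_iff₀ (pow_pos hy0' 2) (mul_pos hp0 hy0')]
    have h6 : 0 ≤ (y : ℝ) - p := by linarith
    nlinarith [mul_nonneg h6 (by positivity : (0 : ℝ) ≤ y), mul_nonneg (mul_nonneg h6 (by positivity : (0 : ℝ) ≤ y)) h6]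
  linarith

lemma mid_term {y p : ℕ} (hy : 2 ≤ y) (hpy : y < p) (hp2 : p ≤ 2 * y) :
    ((p : ℝ) - y) / (y : ℝ) ^ 2 ≤ 2 * (lam y * Real.log p - f p) := by
  have hy0 : (2 : ℝ) ≤ y := by exact_mod_cast hy
  have hpy' : (y : ℝ) ≤ p := by exact_mod_cast hpy.le
  have hp2' : (p : ℝ) ≤ 2 * y := by exact_mod_cast hp2
  have h2 : 0 < Real.log y := Real.log_pos (by linarith)
  have h3 : 0 ≤ f y := le_trans (by positivity) (f_ge (by linarith))
  have h1 : f y ≤ lam y * Real.log p := by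
    unfold lam
    calc f y = f y / Real.log y * Real.log y := by field_simp
      _ ≤ f y / Real.log y * Real.log p :=
          mul_le_mul_of_nonneg_left (Real.log_le_log (by linarith) hpy') (by positivity)
  have h4 := f_sub (by linarith : (1 : ℝ) < y) hpy'
  have h5 : ((p : ℝ) - y) / (y : ℝ) ^ 2 ≤ 2 * (1 / (y : ℝ) - 1 / p) := by
    have hp0 : (0 : ℝ) < p := by linarith
    have hy0' : (0 : ℝ) < y := by linarith
    rw [div_sub_div _ _ hy0'.ne' hp0.ne', mul_div_assoc', div_le_div_iff₀ (pow_pos hy0' 2)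
      (mul_pos hy0' hp0)]
    have h6 : 0 ≤ (p : ℝ) - y := by linarith
    nlinarith [mul_nonneg h6 (by positivity : (0 : ℝ) ≤ y),
      mul_nonneg (mul_nonneg h6 (by positivity : (0 : ℝ) ≤ y)) (by linarith : (0 : ℝ) ≤ 2 * y - p)]
  linarith

lemma high_term {y p : ℕ} (hy : 2 ≤ y) (hp2 : 2 * y < p) :
    Real.log p / (y * Real.log y) ≤ 2 * (lam y * Real.log p - f p) := by
  have hy0 : (2 : ℝ) ≤ y := by exact_mod_cast hy
  have hp2' : 2 * (y : ℝ) + 1 ≤ p := by exact_mod_cast hp2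
  have h2 : 0 < Real.log y := Real.log_pos (by linarith)
  have h2p : Real.log y ≤ Real.log p := Real.log_le_log (by linarith) (by linarith)
  have h3 := lam_ge hy
  have h4 : f p ≤ 1 / (2 * y) := by
    refine (f_le (by linarith)).trans ?_
    exact one_div_le_one_div_of_le (by linarith) (by linarith)
  have h5 : Real.log p / (y * Real.log y) ≤ lam y * Real.log p := by
    calc Real.log p / (y * Real.log y) = 1 / (y * Real.log y) * Real.log p := by ring
      _ ≤ lam y * Real.log p := mul_le_mul_of_nonneg_right h3 (by linarith)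
  have h6 : 1 / (2 * (y : ℝ)) ≤ Real.log p / (y * Real.log y) / 2 := by
    have : 1 / (2 * (y : ℝ)) = Real.log y / (y * Real.log y) / 2 := by field_simp
    rw [this]
    have h7 : 0 < (y : ℝ) * Real.log y := by positivity
    gcongr
  linarith

/-- the sum of the statement against the identity -/
lemma total {n : ℕ} (hn : n ≠ 0) {y : ℕ} (hy : 2 ≤ y) :
    (∑ p ∈ (Finset.Icc 1 y).filter (fun p => p.Prime ∧ ¬ p ∣ n), ((y : ℝ) - p) / (y : ℝ) ^ 2) +
      (∑ p ∈ n.primeFactors.filter (fun p => y < p ∧ p ≤ 2 * y), ((p : ℝ) - y) / (y : ℝ) ^ 2) +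
      (∑ p ∈ n.primeFactors.filter (fun p => 2 * y < p), Real.log p / (y * Real.log y)) +
      Real.log ((n : ℝ) / ∏ p ∈ n.primeFactors, (p : ℝ)) / (y * Real.log y) ≤
    2 * (MP y - Real.log ((n : ℝ) / Nat.totient n) +
      lam y * (Real.log n - Chebyshev.theta y)) := by
  rw [← identity hn y]
  have hy0 : (2 : ℝ) ≤ y := by exact_mod_cast hy
  have hlog : 0 < Real.log y := Real.log_pos (by linarith)
  have h1 : ∑ p ∈ (Finset.Icc 1 y).filter (fun p => p.Prime ∧ ¬ p ∣ n),
      ((y : ℝ) - p) / (y : ℝ) ^ 2 ≤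
      ∑ p ∈ (Finset.Icc 1 y).filter (fun p => p.Prime ∧ ¬ p ∣ n), (f p - lam y * Real.log p) := by
    refine Finset.sum_le_sum (fun p hp => ?_)
    rw [Finset.mem_filter, Finset.mem_Icc] at hp
    exact low_term hy hp.2.1 hp.1.2
  have h1' : 0 ≤ ∑ p ∈ (Finset.Icc 1 y).filter (fun p => p.Prime ∧ ¬ p ∣ n),
      ((y : ℝ) - p) / (y : ℝ) ^ 2 := by
    refine Finset.sum_nonneg (fun p hp => ?_)
    rw [Finset.mem_filter, Finset.mem_Icc] at hp
    have : (p : ℝ) ≤ y := by exact_mod_cast hp.1.2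
    have h6 : 0 ≤ (y : ℝ) - p := by linarith
    positivity
  have h2 : ∑ p ∈ n.primeFactors.filter (fun p => y < p), (lam y * Real.log p - f p) =
      ∑ p ∈ n.primeFactors.filter (fun p => y < p ∧ p ≤ 2 * y), (lam y * Real.log p - f p) +
      ∑ p ∈ n.primeFactors.filter (fun p => 2 * y < p), (lam y * Real.log p - f p) := by
    rw [← Finset.sum_filter_add_sum_filter_not (n.primeFactors.filter (fun p => y < p))
      (fun p => p ≤ 2 * y), Finset.filter_filter, Finset.filter_filter]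
    congr 1
    refine Finset.sum_congr ?_ (fun _ _ => rfl)
    ext p
    simp only [Finset.mem_filter, not_le]
    constructor
    · rintro ⟨a, b, c⟩
      exact ⟨a, c⟩
    · rintro ⟨a, c⟩
      exact ⟨a, by omega, c⟩
  have h3 : ∑ p ∈ n.primeFactors.filter (fun p => y < p ∧ p ≤ 2 * y),
      ((p : ℝ) - y) / (y : ℝ) ^ 2 ≤
      2 * ∑ p ∈ n.primeFactors.filter (fun p => y < p ∧ p ≤ 2 * y), (lam y * Real.log p - f p) := by
    rw [Finset.mul_sum]
    refine Finset.sum_le_sum (fun p hp => ?_)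
    rw [Finset.mem_filter] at hp
    exact mid_term hy hp.2.1 hp.2.2
  have h4 : ∑ p ∈ n.primeFactors.filter (fun p => 2 * y < p), Real.log p / (y * Real.log y) ≤
      2 * ∑ p ∈ n.primeFactors.filter (fun p => 2 * y < p), (lam y * Real.log p - f p) := by
    rw [Finset.mul_sum]
    refine Finset.sum_le_sum (fun p hp => ?_)
    rw [Finset.mem_filter] at hp
    exact high_term hy hp.2
  have h5 : Real.log ((n : ℝ) / ∏ p ∈ n.primeFactors, (p : ℝ)) / (y * Real.log y) ≤
      lam y * Real.log ((n : ℝ) / ∏ p ∈ n.primeFactors, (p : ℝ)) := by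
    calc Real.log ((n : ℝ) / ∏ p ∈ n.primeFactors, (p : ℝ)) / (y * Real.log y) =
        1 / (y * Real.log y) * Real.log ((n : ℝ) / ∏ p ∈ n.primeFactors, (p : ℝ)) := by ring
      _ ≤ _ := mul_le_mul_of_nonneg_right (lam_ge hy) (log_rad_nonneg hn)
  have h5' : 0 ≤ Real.log ((n : ℝ) / ∏ p ∈ n.primeFactors, (p : ℝ)) / (y * Real.log y) :=
    div_nonneg (log_rad_nonneg hn) (by positivity)
  rw [h2]
  linarith

/-- `θ(y) ≥ y/2` for large `y` -/
lemma theta_half {y : ℕ} (hy : 10 ^ 8 ≤ y) : (y : ℝ) / 2 ≤ Chebyshev.theta y := by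
  have h1 := Chebyshev.theta_ge y
  have hy1 : (10 : ℝ) ^ 8 ≤ y := by exact_mod_cast hy
  have hy0 : (0 : ℝ) ≤ y := by positivity
  set q : ℝ := (y : ℝ) ^ (1 / 4 : ℝ) with hq
  have hq4 : q ^ 4 = y := by
    rw [hq, ← Real.rpow_natCast, ← Real.rpow_mul hy0]; norm_num
  have hq0 : 0 ≤ q := Real.rpow_nonneg hy0 _
  have hq100 : 100 ≤ q := by
    by_contra hc
    push Not at hc
    have : q ^ 4 < 100 ^ 4 := pow_lt_pow_left₀ hc hq0 (by norm_num)
    rw [hq4] at this
    linarith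
  have hsq : √(y : ℝ) = q ^ 2 := by
    rw [← hq4, show q ^ 4 = (q ^ 2) ^ 2 by ring, Real.sqrt_sq (by positivity)]
  have hlog : Real.log y ≤ 4 * q := by
    have := Real.log_le_rpow_div hy0 (by norm_num : (0 : ℝ) < 1 / 4)
    rw [← hq] at this
    linarith
  have hlog1 : Real.log ((y : ℝ) + 1) ≤ 5 * q := by
    have h2 : Real.log ((y : ℝ) + 1) ≤ Real.log (2 * y) :=
      Real.log_le_log (by linarith) (by linarith)
    rw [Real.log_mul (by norm_num) (by linarith)] at h2
    have := Real.log_two_lt_d9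
    linarith
  have hl2 := Real.log_two_gt_d9
  rw [hsq] at h1
  have h3 : 2 * q ^ 2 * Real.log y ≤ 8 * q ^ 3 := by
    calc 2 * q ^ 2 * Real.log y ≤ 2 * q ^ 2 * (4 * q) :=
          mul_le_mul_of_nonneg_left hlog (by positivity)
      _ = 8 * q ^ 3 := by ring
  have h4 : (y : ℝ) * 0.6931 ≤ y * Real.log 2 := mul_le_mul_of_nonneg_left (by linarith) hy0
  have h5 : 100 * q ^ 3 ≤ (y : ℝ) := by
    rw [← hq4]
    have : 0 ≤ q ^ 3 := by positivity
    nlinarith
  have h6 : 5 * q ≤ q ^ 3 := by nlinarith [sq_nonneg q, mul_nonneg hq0 hq0]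
  have h7 : 0 ≤ q ^ 3 := by positivity
  linarith

theorem maxN : MaxN := by
  refine ⟨4, 10 ^ 8, ?_⟩
  intro n y hy h1 h2
  have hy2 : 2 ≤ y := le_trans (by norm_num) hy
  have hth := theta_half hy
  have hy1 : (10 : ℝ) ^ 8 ≤ y := by exact_mod_cast hy
  have hn : n ≠ 0 := by
    rintro rfl
    simp at h1
    linarith
  have htot := identity hn y
  have hy0 : (2 : ℝ) ≤ y := by exact_mod_cast hy2
  have hA : 0 ≤ ∑ p ∈ (Finset.Icc 1 y).filter (fun p => p.Prime ∧ ¬ p ∣ n),
      (f p - lam y * Real.log p) := by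
    refine Finset.sum_nonneg (fun p hp => ?_)
    rw [Finset.mem_filter, Finset.mem_Icc] at hp
    refine le_trans ?_ (low_term hy2 hp.2.1 hp.1.2)
    have : (p : ℝ) ≤ y := by exact_mod_cast hp.1.2
    have h6 : 0 ≤ (y : ℝ) - p := by linarith
    positivity
  have hB : 0 ≤ ∑ p ∈ n.primeFactors.filter (fun p => y < p), (lam y * Real.log p - f p) := by
    refine Finset.sum_nonneg (fun p hp => ?_)
    rw [Finset.mem_filter] at hp
    by_cases h : p ≤ 2 * y
    · have h3 := mid_term hy2 hp.2 h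
      have : (y : ℝ) ≤ p := by exact_mod_cast hp.2.le
      have h6 : 0 ≤ ((p : ℝ) - y) / (y : ℝ) ^ 2 := by
        have : 0 ≤ (p : ℝ) - y := by linarith
        positivity
      linarith
    · have h3 := high_term hy2 (by omega : 2 * y < p)
      have h6 : 0 ≤ Real.log p / (y * Real.log y) := by
        have := Real.log_natCast_nonneg p
        have := Real.log_natCast_nonneg y
        positivity
      linarith
  have hlam : 0 ≤ lam y := le_trans (by
    have := Real.log_natCast_nonneg y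
    positivity) (lam_ge hy2)
  have hC : 0 ≤ lam y * Real.log ((n : ℝ) / ∏ p ∈ n.primeFactors, (p : ℝ)) :=
    mul_nonneg hlam (log_rad_nonneg hn)
  have hD : lam y * (Real.log n - Chebyshev.theta y) ≤ 4 / y := by
    refine le_trans ?_ (lam_log_succ hy2)
    refine mul_le_mul_of_nonneg_left ?_ hlam
    have := theta_succ y
    linarith
  have hMP : MP y = fN y + Real.eulerMascheroniConstant +
      Real.log (Real.log (Chebyshev.theta y)) := by
    unfold fN; ring
  have hth1 : 1 < Chebyshev.theta y := by linarith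
  have hll : Real.log (Real.log (Chebyshev.theta y)) ≤ Real.log (Real.log (Real.log n)) := by
    apply Real.log_le_log (Real.log_pos hth1)
    exact Real.log_le_log (by linarith) h1
  linarith

theorem struct : Struct := by
  intro κ C hκ hκ1 hC hfN
  obtain ⟨y₀, hy₀⟩ := hfN
  -- `y^κ ≥ 4 C` for large `y`
  have htend := tendsto_rpow_atTop hκ
  obtain ⟨y₁, hy₁⟩ := Filter.eventually_atTop.mp (htend.eventually_ge_atTop (4 * C))
  refine ⟨10 * C + 8, max (10 ^ 8) (max ⌈y₀⌉₊ ⌈y₁⌉₊), by positivity, ?_⟩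
  intro n y hy h1 h2 hexc
  have hy8 : 10 ^ 8 ≤ y := le_trans (le_max_left _ _) hy
  have hyy0 : y₀ ≤ y := by
    have := le_trans (le_trans (le_max_left _ _) (le_max_right _ _)) hy
    exact Nat.ceil_le.mp this
  have hyy1 : y₁ ≤ y := by
    have := le_trans (le_trans (le_max_right _ _) (le_max_right _ _)) hy
    exact Nat.ceil_le.mp this
  have hy2 : 2 ≤ y := le_trans (by norm_num) hy8
  have hth := theta_half hy8
  have hy1 : (10 : ℝ) ^ 8 ≤ y := by exact_mod_cast hy8
  have hn : n ≠ 0 := by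
    rintro rfl
    simp at h1
    linarith
  have hpow := hy₁ y hyy1
  have hypos : (0 : ℝ) < y := by linarith
  have hynk : (0 : ℝ) < (y : ℝ) ^ (-κ) := Real.rpow_pos_of_pos hypos _
  have hCy : C * (y : ℝ) ^ (-κ) ≤ 1 / 4 := by
    have h3 : (y : ℝ) ^ κ * (y : ℝ) ^ (-κ) = 1 := by
      rw [← Real.rpow_add hypos]; simp
    nlinarith
  set Lg := Real.log n with hLg
  have hLy : (y : ℝ) / 2 ≤ Lg := by linarith
  have hLpos : 0 < Lg := by linarith
  have hLk : Lg ^ (-κ) ≤ 2 * (y : ℝ) ^ (-κ) := by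
    calc Lg ^ (-κ) ≤ ((y : ℝ) / 2) ^ (-κ) :=
          Real.rpow_le_rpow_of_nonpos (by linarith) hLy (by linarith)
      _ = (2 : ℝ) ^ κ * (y : ℝ) ^ (-κ) := by
          rw [Real.div_rpow hypos.le (by norm_num), Real.rpow_neg (by norm_num : (0 : ℝ) ≤ 2),
            div_inv_eq_mul]
          ring
      _ ≤ 2 * (y : ℝ) ^ (-κ) := by
          refine mul_le_mul_of_nonneg_right ?_ hynk.le
          calc (2 : ℝ) ^ κ ≤ (2 : ℝ) ^ (1 : ℝ) :=
                Real.rpow_le_rpow_of_exponent_le (by norm_num) hκ1.le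
            _ = 2 := by norm_num
  have hLknn : 0 ≤ Lg ^ (-κ) := (Real.rpow_pos_of_pos hLpos _).le
  have ht : C * Lg ^ (-κ) ≤ 1 / 2 := by
    calc C * Lg ^ (-κ) ≤ C * (2 * (y : ℝ) ^ (-κ)) := mul_le_mul_of_nonneg_left hLk hC.le
      _ = 2 * (C * (y : ℝ) ^ (-κ)) := by ring
      _ ≤ 1 / 2 := by linarith
  have ht0 : 0 ≤ C * Lg ^ (-κ) := by positivity
  -- the lower bound of `log (n/φ(n))`
  have hth1 : 1 < Chebyshev.theta y := by linarith
  have hLg1 : 1 < Lg := by linarith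
  have hlogL : 0 < Real.log Lg := Real.log_pos hLg1
  have hlow : Real.eulerMascheroniConstant + Real.log (Real.log Lg) - 4 * C * (y : ℝ) ^ (-κ) ≤
      Real.log ((n : ℝ) / Nat.totient n) := by
    unfold Exc at hexc
    rw [← hLg] at hexc
    have h1t : 0 < 1 + -C * Lg ^ (-κ) := by linarith
    have hlhs : 0 < Real.exp Real.eulerMascheroniConstant * Real.log Lg *
        (1 + -C * Lg ^ (-κ)) := by positivity
    have h3 := Real.log_le_log hlhs hexc
    rw [Real.log_mul (by positivity) h1t.ne', Real.log_mul (Real.exp_pos _).ne' hlogL.ne',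
      Real.log_exp] at h3
    have h4 : -(2 * (C * Lg ^ (-κ))) ≤ Real.log (1 + -C * Lg ^ (-κ)) := by
      have h5 := Real.one_sub_inv_le_log_of_pos h1t
      refine le_trans ?_ h5
      have h6 : (1 + -C * Lg ^ (-κ))⁻¹ ≤ 1 + 2 * (C * Lg ^ (-κ)) := by
        rw [inv_le_iff_one_le_mul₀ h1t]
        nlinarith
      linarith
    have h5 : 2 * (C * Lg ^ (-κ)) ≤ 4 * C * (y : ℝ) ^ (-κ) := by
      calc 2 * (C * Lg ^ (-κ)) ≤ 2 * (C * (2 * (y : ℝ) ^ (-κ))) := by
            have := mul_le_mul_of_nonneg_left hLk hC.le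
            linarith
        _ = 4 * C * (y : ℝ) ^ (-κ) := by ring
    linarith
  have htot := total hn hy2
  have hlam : 0 ≤ lam y := le_trans (by
    have := Real.log_natCast_nonneg y
    positivity) (lam_ge hy2)
  have hD : lam y * (Real.log n - Chebyshev.theta y) ≤ 4 / y := by
    refine le_trans ?_ (lam_log_succ hy2)
    refine mul_le_mul_of_nonneg_left ?_ hlam
    have := theta_succ y
    linarith
  have hMP : MP y = fN y + Real.eulerMascheroniConstant +
      Real.log (Real.log (Chebyshev.theta y)) := by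
    unfold fN; ring
  have hll : Real.log (Real.log (Chebyshev.theta y)) ≤ Real.log (Real.log Lg) := by
    apply Real.log_le_log (Real.log_pos hth1)
    exact Real.log_le_log (by linarith) h1
  have hf := hy₀ y hyy0
  have hinv : 4 / (y : ℝ) ≤ 4 * (y : ℝ) ^ (-κ) := by
    have : 1 / (y : ℝ) ≤ (y : ℝ) ^ (-κ) := by
      rw [one_div, ← Real.rpow_neg_one]
      exact Real.rpow_le_rpow_of_exponent_le (by linarith) (by linarith)
    calc 4 / (y : ℝ) = 4 * (1 / y) := by ring
      _ ≤ _ := by linarith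
  refine htot.trans ?_
  have : (10 * C + 8) * (y : ℝ) ^ (-κ) = 2 * (5 * (C * (y : ℝ) ^ (-κ)) + 4 * (y : ℝ) ^ (-κ)) := by
    ring
  rw [this]
  nlinarith

end Pool.Agent.H519R2.NicC1
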